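import Pool.Agent.Helper16.SYM.Defs

/-! SYM-A7: `start` (MP_9410e4_ag) -/

set_option autoImplicit false

namespace Pool.Agent.Helper12.SYM

open Polynomial IsLocalRing
open Pool.Agent.Helper16.SYM

section aux

variable {R : Type*} [CommRing R]

/-- interpolation at nodes with unit differences -/
theorem exists_interp {ι : Type*} [Fintype ι] (a c : ι → R)
    (ha : ∀ i j, i ≠ j → IsUnit (a i - a j)) : ∃ Y : R[X], ∀ i, Y.eval (a i) = c i := by
  classical
  have hI : Pairwise (Function.onFun IsCoprime fun i => Ideal.span {(X - C (a i) : R[X])}) := by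
    intro i j hij
    show IsCoprime (Ideal.span {(X - C (a i) : R[X])}) (Ideal.span {(X - C (a j) : R[X])})
    rw [Ideal.isCoprime_span_singleton_iff]
    exact Polynomial.isCoprime_X_sub_C_of_isUnit_sub (ha i j hij)
  obtain ⟨Y, hY⟩ := Ideal.exists_forall_sub_mem_ideal hI (fun i => C (c i))
  refine ⟨Y, fun i => ?_⟩
  have h := hY i
  rw [Ideal.mem_span_singleton, dvd_iff_isRoot, IsRoot.def, eval_sub, eval_C, sub_eq_zero] at h
  exact h

theorem eval_zero_of_prod_dvd {ι : Type*} [Fintype ι] (a : ι → R) {f : R[X]}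
    (h : ∏ i, (X - C (a i)) ∣ f) (i : ι) : f.eval (a i) = 0 := by
  have h1 : X - C (a i) ∣ f :=
    (Finset.dvd_prod_of_mem (fun i => X - C (a i)) (Finset.mem_univ i)).trans h
  rw [dvd_iff_isRoot] at h1
  exact h1

/-- divisibility by a product of linear factors with unit differences -/
theorem prod_dvd {ι : Type*} [Fintype ι] (a : ι → R)
    (ha : ∀ i j, i ≠ j → IsUnit (a i - a j)) {f : R[X]} (h : ∀ i, f.eval (a i) = 0) :
    ∏ i, (X - C (a i)) ∣ f := by
  refine Finset.prod_dvd_of_coprime (fun i _ j _ hij => ?_) (fun i _ => ?_)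
  · exact Polynomial.isCoprime_X_sub_C_of_isUnit_sub (ha i j hij)
  · rw [dvd_iff_isRoot]
    exact h i

/-- evaluating in both variables -/
theorem eval_eval_comm (G : R[X][X]) (Y : R[X]) (a b : R) (h : Y.eval a = b) :
    (G.eval Y).eval a = (G.eval (C b)).eval a := by
  have h1 : ∀ Z : R[X], (G.eval Z).eval a = G.eval₂ (evalRingHom a) (Z.eval a) := by
    intro Z
    have := Polynomial.hom_eval₂ G (RingHom.id R[X]) (evalRingHom a) Z
    rw [RingHom.comp_id] at this
    exact this
  rw [h1, h1, h, eval_C]

theorem isCoprime_X_sub_C {f : R[X]} {a : R} (h : IsUnit (f.eval a)) :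
    IsCoprime f (X - C a) := by
  obtain ⟨u, hu⟩ := h
  obtain ⟨q, hq⟩ : X - C a ∣ f - C (f.eval a) := by
    rw [dvd_iff_isRoot]
    simp
  refine ⟨C (↑u⁻¹ : R), - (C (↑u⁻¹ : R) * q), ?_⟩
  have h2 : C (↑u⁻¹ : R) * C (f.eval a) = 1 := by
    rw [← C_mul, ← hu, Units.inv_mul, C_1]
  calc C (↑u⁻¹ : R) * f + -(C (↑u⁻¹ : R) * q) * (X - C a)
      = C (↑u⁻¹ : R) * (f - (X - C a) * q) := by ring
    _ = C (↑u⁻¹ : R) * C (f.eval a) := by
        rw [← hq]
        ring
    _ = 1 := h2

end aux

/-- A7: from points to a base divisor and starting divisors -/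
theorem start {R : Type*} [CommRing R] [IsDomain R] [IsLocalRing R] {G : R[X][X]} (hG : G.Monic)
    (hr : 0 < G.natDegree) {e : ℕ} (hwt : Wt G e) {N : ℕ} (hbig : e * (G.natDegree - 1) ≤ 2 * N)
    (p : R) (hp : p ∈ maximalIdeal R) (a b b' : Fin N → R)
    (ha : ∀ i j, i ≠ j → IsUnit (a i - a j))
    (hb : ∀ i, (G.eval (C (b i))).eval (a i) = 0)
    (hd : ∀ i, IsUnit (((derivative G).eval (C (b i))).eval (a i)))
    (hb' : ∀ i, (G.eval (C (b' i))).eval (a i + p ^ 2) = 0)
    (hbb : ∀ i, b' i - b i ∈ maximalIdeal R)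
    (hun : ∀ T : (ResidueField R)[X][X], T ≠ 0 →
      (∀ l, T.coeff l ≠ 0 → (T.coeff l).natDegree + e * l + 1 ≤ e * (G.natDegree - 1)) →
      ∃ i, (T.eval (C (residue R (b i)))).eval (residue R (a i)) ≠ 0) :
    ∃ U₀ Y₀ : R[X], U₀.natDegree = N ∧ Base G e U₀ Y₀ ∧ ∃ D : Fin N → R[X],
      (∀ i, (D i).degree < N) ∧ (∀ i, ∃ Y, Near G U₀ Y₀ (U₀ + C (p ^ 2) * D i) Y) ∧
      IsUnit (Matrix.of fun i j : Fin N => (D i).coeff j).det := by
  classical
  obtain ⟨Y₀, hY₀⟩ := exists_interp a b ha
  have hp2 : p ^ 2 ∈ maximalIdeal R := Ideal.pow_mem_of_mem _ hp 2 (by norm_num)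
  have hp2r : residue R (p ^ 2) = 0 := by
    rw [← IsLocalRing.residue_eq_zero_iff] at hp2
    exact hp2
  have hNd : (∏ i, (X - C (a i)) : R[X]).natDegree = N := by
    rw [natDegree_prod_of_monic _ _ (fun i _ => monic_X_sub_C _)]
    simp
  have har : ∀ i j, i ≠ j → IsUnit (residue R (a i) - residue R (a j)) := by
    intro i j hij
    rw [← map_sub]
    exact (ha i j hij).map _
  have hU₀map : (∏ i, (X - C (a i)) : R[X]).map (residue R) =
      ∏ i, (X - C (residue R (a i))) := by
    rw [Polynomial.map_prod]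
    exact Finset.prod_congr rfl fun i _ => by simp
  refine ⟨∏ i, (X - C (a i)), Y₀, hNd, ⟨hG, hr, hwt, monic_prod_of_monic _ _
    (fun i _ => monic_X_sub_C _), ?_, ?_, ?_, by rw [hNd]; exact hbig⟩,
    fun i => - ∏ j ∈ Finset.univ.erase i, (X - C (a j)), ?_, ?_, ?_⟩
  · -- `dvd`
    refine prod_dvd a ha fun i => ?_
    rw [eval_eval_comm G Y₀ (a i) (b i) (hY₀ i)]
    exact hb i
  · -- `unram`
    rw [hU₀map]
    refine IsCoprime.prod_right fun i _ => isCoprime_X_sub_C ?_
    rw [eval_map, eval₂_at_apply, eval_eval_comm _ Y₀ (a i) (b i) (hY₀ i)]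
    exact (hd i).map _
  · -- `unis`
    intro T hT hTw hdvd
    obtain ⟨i, hi⟩ := hun T hT hTw
    apply hi
    rw [← eval_eval_comm T (Y₀.map (residue R)) (residue R (a i)) (residue R (b i))
      (by rw [eval_map, eval₂_at_apply, hY₀ i])]
    rw [hU₀map] at hdvd
    exact eval_zero_of_prod_dvd (fun i => residue R (a i)) hdvd i
  · -- degrees
    intro i
    rw [degree_neg, degree_prod_of_monic _ _ (fun j _ => monic_X_sub_C _)]
    simp only [degree_X_sub_C, Finset.sum_const, Finset.card_erase_of_mem (Finset.mem_univ i),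
      Finset.card_univ, Fintype.card_fin]
    rw [nsmul_one]
    have : 0 < N := i.pos
    exact_mod_cast (by omega : N - 1 < N)
  · -- the divisors near the base divisor
    intro i
    set a' : Fin N → R := Function.update a i (a i + p ^ 2) with ha'
    have ha'r : ∀ j, residue R (a' j) = residue R (a j) := by
      intro j
      rw [ha']
      by_cases hj : j = i
      · subst hj
        rw [Function.update_self, map_add, hp2r, add_zero]
      · rw [Function.update_of_ne hj]
    have ha'u : ∀ j l, j ≠ l → IsUnit (a' j - a' l) := by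
      intro j l hjl
      have h1 : IsUnit (residue R (a' j - a' l)) := by
        rw [map_sub, ha'r, ha'r]
        exact har j l hjl
      exact isUnit_of_map_unit (residue R) _ h1
    have hU : (∏ j, (X - C (a j)) : R[X]) + C (p ^ 2) *
        (- ∏ j ∈ Finset.univ.erase i, (X - C (a j))) = ∏ j, (X - C (a' j)) := by
      rw [← Finset.mul_prod_erase Finset.univ (fun j => (X - C (a j) : R[X])) (Finset.mem_univ i),
        ← Finset.mul_prod_erase Finset.univ (fun j => (X - C (a' j) : R[X])) (Finset.mem_univ i)]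
      have e1 : ∏ j ∈ Finset.univ.erase i, (X - C (a' j) : R[X]) =
          ∏ j ∈ Finset.univ.erase i, (X - C (a j) : R[X]) := by
        refine Finset.prod_congr rfl fun j hj => ?_
        rw [ha', Function.update_of_ne (Finset.ne_of_mem_erase hj)]
      rw [e1, ha', Function.update_self, C_add]
      ring
    obtain ⟨Y, hY⟩ := exists_interp a' (Function.update b i (b' i)) ha'u
    refine ⟨Y, ?_, ?_, ?_, ?_⟩
    · rw [hU]
      exact monic_prod_of_monic _ _ (fun i _ => monic_X_sub_C _)
    · rw [hU]
      refine prod_dvd a' ha'u fun j => ?_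
      rw [eval_eval_comm G Y _ _ (hY j)]
      by_cases hj : j = i
      · subst hj
        rw [ha', Function.update_self, Function.update_self]
        exact hb' j
      · rw [ha', Function.update_of_ne hj, Function.update_of_ne hj]
        exact hb j
    · rw [hU, Polynomial.map_prod, Polynomial.map_prod]
      refine Finset.prod_congr rfl fun j _ => ?_
      rw [Polynomial.map_sub, Polynomial.map_sub, map_C, map_C, ha'r]
    · rw [hU₀map]
      refine prod_dvd (fun j => residue R (a j)) har fun j => ?_
      have e1 : (Y₀.map (residue R)).eval (residue R (a j)) = residue R (b j) := by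
        rw [eval_map, eval₂_at_apply, hY₀ j]
      have e2 : (Y.map (residue R)).eval (residue R (a j)) =
          residue R (Function.update b i (b' i) j) := by
        rw [← ha'r j, eval_map, eval₂_at_apply, hY j]
      rw [Polynomial.map_sub, eval_sub, e1, e2, ← map_sub, IsLocalRing.residue_eq_zero_iff]
      by_cases hj : j = i
      · subst hj
        rw [Function.update_self]
        exact hbb j
      · rw [Function.update_of_ne hj, sub_self]
        exact Ideal.zero_mem _
  · -- the determinant
    have h1 : (Matrix.of fun i j : Fin N =>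
        (- ∏ j ∈ Finset.univ.erase i, (X - C (a j)) : R[X]).coeff j) *
        (Matrix.vandermonde a).transpose = Matrix.diagonal fun i =>
          - ∏ j ∈ Finset.univ.erase i, (a i - a j) := by
      ext i l
      rw [Matrix.mul_apply, Matrix.diagonal_apply]
      have h2 : ∑ x : Fin N, (- ∏ j ∈ Finset.univ.erase i, (X - C (a j)) : R[X]).coeff x *
          a l ^ (x : ℕ) = (- ∏ j ∈ Finset.univ.erase i, (X - C (a j)) : R[X]).eval (a l) := by
        rw [eval_eq_sum_range' (n := N), Finset.sum_range]
        have : 0 < N := i.pos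
        rw [natDegree_neg, natDegree_prod_of_monic _ _ (fun j _ => monic_X_sub_C _)]
        simp only [natDegree_X_sub_C, Finset.sum_const,
          Finset.card_erase_of_mem (Finset.mem_univ i), Finset.card_univ, Fintype.card_fin]
        simp only [smul_eq_mul, mul_one]
        omega
      simp only [Matrix.of_apply, Matrix.transpose_apply, Matrix.vandermonde_apply]
      rw [h2, eval_neg, eval_prod]
      by_cases hil : i = l
      · subst hil
        rw [if_pos rfl]
        simp
      · rw [if_neg hil, neg_eq_zero]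
        exact Finset.prod_eq_zero (Finset.mem_erase.2 ⟨Ne.symm hil, Finset.mem_univ l⟩) (by simp)
    have h3 := congrArg Matrix.det h1
    rw [Matrix.det_mul, Matrix.det_diagonal] at h3
    refine isUnit_of_mul_isUnit_left (y := (Matrix.vandermonde a).transpose.det) ?_
    rw [h3]
    rw [IsUnit.prod_univ_iff]
    intro i
    rw [IsUnit.neg_iff]
    rw [IsUnit.prod_iff]
    intro j hj
    exact ha i j (Ne.symm (Finset.ne_of_mem_erase hj))

end Pool.Agent.Helper12.SYM
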